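import Pool.Agent.Run7.h292.BL.ASY
import Pool.Agent.Run7.h292.BL.DIG2
import Pool.Agent.Run7.h459.BL.MOM2
import Pool.Agent.Run7.h774.BL.CNT
import Pool.Agent.Run7.h774.BL.MOM1

/-!
# MP_2634a8_co: arc-disjoint directed cycles in dense regular digraphs

The number of arc-disjoint directed cycles conjectured by Alon, McDiarmid and Molloy is correct up
to a factor `1 - o(1)` for dense regular digraphs, and up to `o(n ^ 2)` for all regular digraphs;
there is a version for all Eulerian digraphs.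

Sources: the fractional theorem is the one of the starting file
`Pool.Agent.Results.MP_2634a8_co.Fractional`; the weighted nibble theorem is that of the starting
library (`H248.Nib.nibble_T`); pieces of the proof by helper459 (MOM2), helper646 (DIG),
helper774 (MOM1, CNT) and helper292.
-/

set_option autoImplicit false

namespace Pool.Agent.Results.MP_2634a8_co.DenseAsymptotic

open Finset
open Pool.Agent.Results.MP_2634a8_co.Fractional (DiCycle)
open Pool.Agent.Run7.h292.BL (dO ArcDisjoint StAsy t_ASY)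
open Pool.Agent.Run7.h292.BL.D2 (StDig2 t_DIG2)

theorem dig2 : StDig2 := t_DIG2 (t_ASY Pool.Agent.Run7.h774.BL.t_MOM1
  Pool.Agent.Run7.h459.BL.t_MOM2 Pool.Agent.Run7.h774.BL.t_CNT)

/-- the number of vertices joined to `v` by a pair of opposite arcs -/
noncomputable def opp {V : Type} (A : V → V → Prop) (v : V) : ℝ :=
  (Nat.card {u // A v u ∧ A u v} : ℝ)

/-- the number of vertices different from `v` which are not joined to `v` by any arc -/
noncomputable def non {V : Type} (A : V → V → Prop) (v : V) : ℝ :=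
  (Nat.card {u // u ≠ v ∧ ¬ A v u ∧ ¬ A u v} : ℝ)

theorem opp_nonneg {V : Type} (A : V → V → Prop) (v : V) : 0 ≤ opp A v := Nat.cast_nonneg _

theorem non_nonneg {V : Type} (A : V → V → Prop) (v : V) : 0 ≤ non A v := Nat.cast_nonneg _

open Classical in
/-- the combined form -/
theorem dig3 (ε : ℝ) (hε : 0 < ε) : ∃ n0 : ℕ, ∀ (V : Type) [Fintype V] (A : V → V → Prop),
    n0 ≤ Fintype.card V → (∀ v, ¬ A v v) → (∀ v, #{u | A u v} = #{u | A v u}) →
    ∃ (N : ℕ) (C : Fin N → DiCycle A), ArcDisjoint C ∧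
      (∑ v, dO A v ^ 2) / (2 * (Fintype.card V : ℝ)) +
        (∑ v, opp A v * non A v) / (2 * (Fintype.card V : ℝ)) -
          ε * (Fintype.card V : ℝ) ^ 2 ≤ (N : ℝ) := by
  obtain ⟨n0, h0⟩ := dig2 ε hε
  refine ⟨n0, ?_⟩
  intro V _ A hcard hloop hbal
  obtain ⟨N, C, hC, hN⟩ := h0 V A hcard hloop hbal
  refine ⟨N, C, hC, le_trans ?_ hN⟩
  have h1 : ∑ v, opp A v * non A v ≤
      ∑ v, ((#{u | A v u ∧ A u v} : ℕ) : ℝ) * ((#{u | ¬ A v u ∧ ¬ A u v} : ℕ) : ℝ) := by
    refine sum_le_sum fun v _ => ?_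
    have e1 : opp A v = ((#{u | A v u ∧ A u v} : ℕ) : ℝ) := by
      unfold opp
      rw [Nat.card_eq_fintype_card, Fintype.card_subtype]
    have e2 : non A v ≤ ((#{u | ¬ A v u ∧ ¬ A u v} : ℕ) : ℝ) := by
      unfold non
      rw [Nat.card_eq_fintype_card, Fintype.card_subtype]
      exact_mod_cast card_le_card (fun u hu => by
        rw [mem_filter] at hu ⊢
        exact ⟨hu.1, hu.2.2⟩)
    rw [e1]
    exact mul_le_mul_of_nonneg_left e2 (Nat.cast_nonneg _)
  have h2 : (∑ v, opp A v * non A v) / (2 * (Fintype.card V : ℝ)) ≤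
      (∑ v, ((#{u | A v u ∧ A u v} : ℕ) : ℝ) * ((#{u | ¬ A v u ∧ ¬ A u v} : ℕ) : ℝ)) /
        (2 * (Fintype.card V : ℝ)) :=
    div_le_div_of_nonneg_right h1 (by positivity)
  linarith

theorem dig (ε : ℝ) (hε : 0 < ε) : ∃ n0 : ℕ, ∀ (V : Type) [Fintype V] (A : V → V → Prop),
    n0 ≤ Fintype.card V → (∀ v, ¬ A v v) →
    (∀ v, Nat.card {u // A u v} = Nat.card {u // A v u}) →
    ∃ (N : ℕ) (C : Fin N → DiCycle A), ArcDisjoint C ∧
      (∑ v, dO A v ^ 2) / (2 * (Fintype.card V : ℝ)) +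
        (∑ v, opp A v * non A v) / (2 * (Fintype.card V : ℝ)) -
          ε * (Fintype.card V : ℝ) ^ 2 ≤ (N : ℝ) := by
  classical
  obtain ⟨n0, h0⟩ := dig3 ε hε
  refine ⟨n0, ?_⟩
  intro V _ A hcard hloop hbal
  refine h0 V A hcard hloop fun v => ?_
  have := hbal v
  rw [Nat.card_eq_fintype_card, Nat.card_eq_fintype_card, Fintype.card_subtype,
    Fintype.card_subtype] at this
  convert this using 2 <;> congr

theorem eulerian (ε : ℝ) (hε : 0 < ε) : ∃ n₀ : ℕ, ∀ (V : Type) [Fintype V]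
    (A : V → V → Prop) (d : V → ℕ), n₀ ≤ Fintype.card V → (∀ v, ¬ A v v) →
    (∀ v, Nat.card {u // A v u} = d v) → (∀ v, Nat.card {u // A u v} = d v) →
    ∃ (N : ℕ) (C : Fin N → DiCycle A),
      (∀ i j, i ≠ j → ∀ u v, (C i).Uses u v → ¬ (C j).Uses u v) ∧
      (∑ v, ((d v + 1).choose 2 : ℝ)) / Fintype.card V +
        (∑ v, opp A v * non A v) / (2 * Fintype.card V) -
          ε * (Fintype.card V : ℝ) ^ 2 ≤ N := by
  classical
  obtain ⟨n₀, h₀⟩ := dig (ε / 2) (by linarith)
  obtain ⟨n₁, h₁⟩ := exists_nat_ge (1 / ε)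
  refine ⟨max n₀ (n₁ + 1), ?_⟩
  intro V _ A d hcard hloop hout hin
  have ho : ∀ v, #{u | A v u} = d v := by
    intro v
    rw [← hout v, Nat.card_eq_fintype_card, Fintype.card_subtype]
  obtain ⟨N, C, hC, hN⟩ := h₀ V A ((le_max_left _ _).trans hcard) hloop
    (fun v => (hin v).trans (hout v).symm)
  refine ⟨N, C, hC, le_trans ?_ hN⟩
  have hc1 : ((n₁ + 1 : ℕ) : ℝ) ≤ Fintype.card V := by
    exact_mod_cast (le_max_right _ _).trans hcard
  have hn1 : 1 / ε ≤ Fintype.card V := by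
    push_cast at hc1; linarith
  have hn : (0 : ℝ) < Fintype.card V := lt_of_lt_of_le (by positivity) hn1
  set n : ℝ := (Fintype.card V : ℝ) with hndef
  have hd : ∀ v, dO A v = (d v : ℝ) := by
    intro v
    unfold dO
    rw [← ho v]
  have hdn : ∀ v, (d v : ℝ) ≤ n := by
    intro v
    rw [← ho v, hndef]
    exact_mod_cast card_le_univ _
  have h1 : ∑ v, ((d v + 1).choose 2 : ℝ) = ∑ v, (d v : ℝ) ^ 2 / 2 + ∑ v, (d v : ℝ) / 2 := by
    rw [← sum_add_distrib]
    refine sum_congr rfl fun v _ => ?_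
    rw [Nat.cast_choose_two]
    push_cast
    ring
  have h2 : ∑ v, (d v : ℝ) / 2 ≤ n * (n / 2) := by
    calc ∑ v, (d v : ℝ) / 2 ≤ ∑ v : V, n / 2 := sum_le_sum fun v _ => by linarith [hdn v]
      _ = n * (n / 2) := by simp [hndef]
  have h3 : (∑ v, dO A v ^ 2) / (2 * n) = (∑ v, (d v : ℝ) ^ 2 / 2) / n := by
    simp only [hd]
    rw [← sum_div, div_div]
  rw [h3, h1, add_div]
  have h4 : (∑ v, (d v : ℝ) / 2) / n ≤ n / 2 := by
    rw [div_le_iff₀ hn]; linarith
  have h5 : n / 2 ≤ ε / 2 * n ^ 2 := by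
    have h6 : 1 ≤ n * ε := by
      rw [div_le_iff₀ hε] at hn1; exact hn1
    nlinarith
  linarith

/-- Main theorem.
(1) For all `ε, c > 0` there is `n₀` such that every `k`-regular digraph without loops and without
parallel arcs on `n ≥ n₀` vertices with `k ≥ c n` has at least `(1 - ε) (k + 1 choose 2)` pairwise
arc-disjoint directed cycles.
(2) For every `δ > 0` there is `n₀` such that every `k`-regular digraph without loops and without
parallel arcs on `n ≥ n₀` vertices with `∑ v, opp v * non v ≥ δ n ^ 3` has at least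
`(k + 1 choose 2)` pairwise arc-disjoint directed cycles. Here `opp v` is the number of vertices
joined to `v` by two opposite arcs and `non v` the number of vertices other than `v` which are not
joined to `v` by any arc.
(3) For every `ε > 0` there is `n₀` such that every digraph without loops and without parallel arcs
on `n ≥ n₀` vertices in which every vertex `v` has in-degree and out-degree both equal to `d v` has
at least `(∑ v, (d v + 1 choose 2)) / n + (∑ v, opp v * non v) / (2 n) - ε n ^ 2` pairwise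
arc-disjoint directed cycles. -/
theorem result :
    (∀ ε c : ℝ, 0 < ε → 0 < c → ∃ n₀ : ℕ, ∀ (V : Type) [Fintype V] (A : V → V → Prop) (k : ℕ),
      n₀ ≤ Fintype.card V → c * Fintype.card V ≤ k → (∀ v, ¬ A v v) →
      (∀ v, Nat.card {u // A v u} = k) → (∀ v, Nat.card {u // A u v} = k) →
      ∃ (N : ℕ) (C : Fin N → DiCycle A),
        (∀ i j, i ≠ j → ∀ u v, (C i).Uses u v → ¬ (C j).Uses u v) ∧
        (1 - ε) * ((k + 1).choose 2 : ℝ) ≤ N) ∧
    (∀ δ : ℝ, 0 < δ → ∃ n₀ : ℕ, ∀ (V : Type) [Fintype V] (A : V → V → Prop) (k : ℕ),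
      n₀ ≤ Fintype.card V → (∀ v, ¬ A v v) →
      (∀ v, Nat.card {u // A v u} = k) → (∀ v, Nat.card {u // A u v} = k) →
      δ * (Fintype.card V : ℝ) ^ 3 ≤ ∑ v, opp A v * non A v →
      ∃ (N : ℕ) (C : Fin N → DiCycle A),
        (∀ i j, i ≠ j → ∀ u v, (C i).Uses u v → ¬ (C j).Uses u v) ∧ (k + 1).choose 2 ≤ N) ∧
    (∀ ε : ℝ, 0 < ε → ∃ n₀ : ℕ, ∀ (V : Type) [Fintype V] (A : V → V → Prop) (d : V → ℕ),
      n₀ ≤ Fintype.card V → (∀ v, ¬ A v v) →
      (∀ v, Nat.card {u // A v u} = d v) → (∀ v, Nat.card {u // A u v} = d v) →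
      ∃ (N : ℕ) (C : Fin N → DiCycle A),
        (∀ i j, i ≠ j → ∀ u v, (C i).Uses u v → ¬ (C j).Uses u v) ∧
        (∑ v, ((d v + 1).choose 2 : ℝ)) / Fintype.card V +
          (∑ v, opp A v * non A v) / (2 * Fintype.card V) -
            ε * (Fintype.card V : ℝ) ^ 2 ≤ N) := by
  refine ⟨?_, ?_, fun ε hε => eulerian ε hε⟩
  · intro ε c hε hc
    obtain ⟨n₀, h₀⟩ := eulerian (ε * c ^ 2 / 2) (by positivity)
    refine ⟨max n₀ 1, ?_⟩
    intro V _ A k hcard hck hloop hout hin
    obtain ⟨N, C, hC, hN⟩ := h₀ V A (fun _ => k) ((le_max_left _ _).trans hcard) hloop hout hin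
    refine ⟨N, C, hC, le_trans ?_ hN⟩
    have hn : (0 : ℝ) < Fintype.card V := by
      exact_mod_cast lt_of_lt_of_le Nat.zero_lt_one ((le_max_right _ _).trans hcard)
    have h1 : (∑ _v : V, ((k + 1).choose 2 : ℝ)) / Fintype.card V = ((k + 1).choose 2 : ℝ) := by
      rw [sum_const, card_univ, nsmul_eq_mul]
      field_simp
    have h0 : 0 ≤ (∑ v, opp A v * non A v) / (2 * Fintype.card V) :=
      div_nonneg (sum_nonneg fun v _ => mul_nonneg (opp_nonneg A v) (non_nonneg A v))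
        (by positivity)
    rw [h1]
    have h2 : (k : ℝ) ^ 2 / 2 ≤ ((k + 1).choose 2 : ℝ) := by
      rw [Nat.cast_choose_two]
      push_cast
      have : (0 : ℝ) ≤ k := Nat.cast_nonneg _
      nlinarith
    have h3 : ε * c ^ 2 / 2 * (Fintype.card V : ℝ) ^ 2 ≤ ε * ((k + 1).choose 2 : ℝ) := by
      have h4 : (c * Fintype.card V) ^ 2 ≤ (k : ℝ) ^ 2 := by
        apply pow_le_pow_left₀ (by positivity) hck
      calc _ = ε * ((c * Fintype.card V) ^ 2 / 2) := by ring
        _ ≤ ε * ((k : ℝ) ^ 2 / 2) := by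
            apply mul_le_mul_of_nonneg_left _ hε.le
            linarith
        _ ≤ _ := mul_le_mul_of_nonneg_left h2 hε.le
    linarith
  · intro δ hδ
    obtain ⟨n₀, h₀⟩ := eulerian (δ / 2) (by positivity)
    refine ⟨max n₀ 1, ?_⟩
    intro V _ A k hcard hloop hout hin hgain
    obtain ⟨N, C, hC, hN⟩ := h₀ V A (fun _ => k) ((le_max_left _ _).trans hcard) hloop hout hin
    refine ⟨N, C, hC, ?_⟩
    have hn : (0 : ℝ) < Fintype.card V := by
      exact_mod_cast lt_of_lt_of_le Nat.zero_lt_one ((le_max_right _ _).trans hcard)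
    have h1 : (∑ _v : V, ((k + 1).choose 2 : ℝ)) / Fintype.card V = ((k + 1).choose 2 : ℝ) := by
      rw [sum_const, card_univ, nsmul_eq_mul]
      field_simp
    rw [h1] at hN
    have h2 : δ / 2 * (Fintype.card V : ℝ) ^ 2 ≤
        (∑ v, opp A v * non A v) / (2 * Fintype.card V) := by
      rw [le_div_iff₀ (by positivity)]
      calc _ = δ * (Fintype.card V : ℝ) ^ 3 := by ring
        _ ≤ _ := hgain
    have h3 : ((k + 1).choose 2 : ℝ) ≤ N := by linarith
    exact_mod_cast h3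

end Pool.Agent.Results.MP_2634a8_co.DenseAsymptotic
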